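import Pool.Agent.H673R2.PdpPoly
import Pool.Agent.H673R2.Search

/-!
# MP_f73e8c_lc: partially disjoint paths in planar digraphs are NP-hard for bounded `Δ`, `χ`, `ω`
-/

namespace Pool.Agent.Results.MP_f73e8c_lc.BoundedParameterNPHard

open Pool.Agent.NPC Pool.Agent.H673R2 Pool.Agent.H673R2.Pdp

/-- An instance of the partially disjoint paths problem: the number `n` of vertices (the vertices
are `0, …, n-1`), the list of the arcs, the list of the terminal pairs
`(r_1, s_1), …, (r_k, s_k)`, and the list of the pairs in `F`. -/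
abbrev Inst : Type := ℕ × List (ℕ × ℕ) × List (ℕ × ℕ) × List (ℕ × ℕ)

open Classical in
/-- The instance is well formed, the digraph has a plane (straight-line) drawing, the `2k`
terminals are pairwise different vertices, `k` and `|F|` are at most `|V| ≤ 2 |E|`, and the
disjointness graph `Γ` has maximum degree at most `3`, chromatic number at most `2` and clique
number at most `2`. -/
def Small (I : Inst) : Prop :=
  WellFormed I.1 I.2.1 I.2.2.1 I.2.2.2 ∧
    (∃ pos : ℕ → ℝ × ℝ, IsPlaneDrawing I.1 I.2.1 pos) ∧
    DistinctTerminals I.2.2.1 ∧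
    I.2.2.1.length ≤ I.1 ∧ I.2.2.2.length ≤ I.1 ∧ I.1 ≤ 2 * I.2.1.length ∧
    (Gam I.2.2.1.length I.2.2.2).maxDegree ≤ 3 ∧
    (Gam I.2.2.1.length I.2.2.2).chromaticNumber ≤ 2 ∧
    (Gam I.2.2.1.length I.2.2.2).cliqueNum ≤ 2

/-- `P` is a solution of the instance `I`. -/
def Sol (I : Inst) (P : List (List ℕ)) : Prop := IsSolution I.2.1 I.2.2.1 I.2.2.2 P

/-- The partially disjoint paths problem in planar digraphs is `NP`-hard even if the disjointness
graph `Γ` satisfies `Δ(Γ) ≤ 3`, `χ(Γ) ≤ 2` and `ω(Γ) ≤ 2`; so if `P ≠ NP`, no polynomial-time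
algorithm finds the paths, or reports that there are none, for all such instances. -/
theorem result :
    NPHardOn Small (fun I => ∃ P, Sol I P) ∧
    (PneNP → ¬ ∃ f : List Bool → List Bool, PolyTime f ∧ SolvesSearch Small Sol f) := by
  have h : NPHardOn Small (fun I => ∃ P, Sol I P) := by
    refine npHardOn_of hardPr_EqSat
      (f := fun cs => ((11 + 2 * kk cs.length, arcsOf (kk cs.length) (ty cs.length),
        termsOf (kk cs.length), FF cs) : Inst)) ?_ ?_ ?_
    · have hn : UPoly (fun cs : List Con => cs.length) := UPoly.length Poly.id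
      exact Poly.pair (NPC.Poly.add (NPC.Poly.const 11) (NPC.Poly.mul (NPC.Poly.const 2)
        (u_kk hn).toPoly)) (Poly.pair (p_arcs hn) (Poly.pair (p_terms hn) p_FF))
    · intro cs hok
      refine ⟨wellFormed hok, ⟨_, isPlaneDrawing (kk_pos _) (posOK _) (ty_lt _)⟩,
        distinctTerminals _, ?_, ?_, ?_, gam_all hok (termsOf_length _)⟩
      · simp only [termsOf_length]
        omega
      · exact FF_length_le cs
      · simp only [arcsOf_length]
        omega
    · intro cs hok
      exact solvable_FF hok
  exact ⟨h, no_search h⟩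

end Pool.Agent.Results.MP_f73e8c_lc.BoundedParameterNPHard
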